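import Mathlib
import Pool.Agent.Helper93.FU1

open Polynomial Metric Set Filter Topology

namespace Pool.Agent.Results.MP_051359_an.Annulus

open Pool.Agent.Helper93.FU

/-- The `n`-th partial sum `S_n(f)(z) = ∑_{k ≤ n} a_k z^k` of the Taylor series of `f` at `0`,
where `a_k = f^{(k)}(0) / k!`. -/
noncomputable def taylorSum (f : ℂ → ℂ) (n : ℕ) (z : ℂ) : ℂ :=
  ∑ k ∈ Finset.range (n + 1), (iteratedDeriv k f 0 / (k.factorial : ℂ)) * z ^ k

/-- `A(K)`: the continuous functions on `K` that are holomorphic in the interior of `K`,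
as a subset of `C(K, ℂ)` (for compact `K` its topology is that of the supremum norm). -/
def AK (K : Set ℂ) : Set C(K, ℂ) :=
  {g | ∃ G : ℂ → ℂ, (∀ z : K, G z = g z) ∧ DifferentiableOn ℂ G (interior K)}

/-- The restriction `S_n(f)|_K` as an element of `A(K)`. -/
noncomputable def taylorRestrict (f : ℂ → ℂ) (K : Set ℂ) (n : ℕ) : AK K :=
  ⟨⟨fun z : K => taylorSum f n z, by unfold taylorSum; fun_prop⟩,
    ⟨taylorSum f n, fun _ => rfl,
      (show Differentiable ℂ (taylorSum f n) by unfold taylorSum; fun_prop).differentiableOn⟩⟩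

/-- The lower density `liminf_N #(E ∩ {0,…,N}) / (N+1)` of a set of natural numbers. -/
noncomputable def lowerDensity (E : Set ℕ) : ℝ :=
  liminf (fun N : ℕ => ((E ∩ Iic N).ncard : ℝ) / ((N : ℝ) + 1)) atTop

/-- `FU(𝔻, K)`: the functions holomorphic on the unit disc such that for every non-empty open
`U ⊆ A(K)` the set of `n` with `S_n(f)|_K ∈ U` has positive lower density. -/
def FU (K : Set ℂ) : Set (ℂ → ℂ) :=
  {f | DifferentiableOn ℂ f (ball 0 1) ∧
    ∀ U : Set (AK K), IsOpen U → U.Nonempty → 0 < lowerDensity {n | taylorRestrict f K n ∈ U}}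

/-- `𝓜(r, R)`: the compact sets `K ⊆ ℂ ∖ 𝔻` with connected complement contained in the closed
annulus `r ≤ |z| ≤ R`. -/
def MrR (r R : ℝ) : Set (Set ℂ) :=
  {K | IsCompact K ∧ K ⊆ (ball (0 : ℂ) 1)ᶜ ∧ IsConnected Kᶜ ∧ ∀ z ∈ K, r ≤ ‖z‖ ∧ ‖z‖ ≤ R}

lemma density_eventually {E : Set ℕ} (h : 0 < lowerDensity E) :
    ∃ δ : ℝ, 0 < δ ∧ ∀ᶠ N : ℕ in atTop, δ * ((N : ℝ) + 1) < ((E ∩ Iic N).ncard : ℝ) := by
  refine ⟨lowerDensity E / 2, by linarith, ?_⟩
  have h1 : lowerDensity E / 2 < liminf (fun N : ℕ => ((E ∩ Iic N).ncard : ℝ) / ((N : ℝ) + 1)) atTop := by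
    change lowerDensity E / 2 < lowerDensity E
    linarith
  have h2 := eventually_lt_of_lt_liminf h1
    (isBoundedUnder_of ⟨0, fun N => by
      show (0:ℝ) ≤ ((E ∩ Iic N).ncard : ℝ) / ((N : ℝ) + 1)
      positivity⟩)
  filter_upwards [h2] with N hN
  rwa [lt_div_iff₀ (by positivity)] at hN

lemma ncard_inter_Iic_le (E : Set ℕ) (N : ℕ) (M : ℕ) (h : ∀ n ∈ E, n ≤ N → n < M) :
    (E ∩ Iic N).ncard ≤ M := by
  calc (E ∩ Iic N).ncard ≤ (Iio M).ncard :=
        ncard_le_ncard (fun n hn => h n hn.1 hn.2) (finite_Iio M)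
    _ = M := by rw [Set.ncard_eq_toFinset_card']; simp

lemma density_unbounded {E : Set ℕ} (h : 0 < lowerDensity E) (M : ℕ) : ∃ m ∈ E, M ≤ m := by
  by_contra hcon
  push Not at hcon
  obtain ⟨δ, hδ, hev⟩ := density_eventually h
  obtain ⟨N0, hN0⟩ := eventually_atTop.1 hev
  obtain ⟨N1, hN1⟩ := exists_nat_gt ((M : ℝ) / δ)
  have h1 := hN0 (max N0 N1) (le_max_left _ _)
  have h2 : (E ∩ Iic (max N0 N1)).ncard ≤ M :=
    ncard_inter_Iic_le _ _ _ (fun n hn _ => hcon n hn)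
  have h3 : ((E ∩ Iic (max N0 N1)).ncard : ℝ) ≤ M := by exact_mod_cast h2
  have h4 : (N1 : ℝ) ≤ ((max N0 N1 : ℕ) : ℝ) := by exact_mod_cast le_max_right _ _
  rw [div_lt_iff₀ hδ] at hN1
  nlinarith

/-- the polynomial version of the partial sum -/
noncomputable def tpoly (f : ℂ → ℂ) (n : ℕ) : ℂ[X] :=
  ∑ k ∈ Finset.range (n + 1), C (iteratedDeriv k f 0 / (k.factorial : ℂ)) * X ^ k

lemma tpoly_eval (f : ℂ → ℂ) (n : ℕ) (z : ℂ) : (tpoly f n).eval z = taylorSum f n z := by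
  simp [tpoly, taylorSum, eval_finsetSum]

lemma tpoly_coeff (f : ℂ → ℂ) (n k : ℕ) (hk : k ≤ n) :
    (tpoly f n).coeff k = iteratedDeriv k f 0 / (k.factorial : ℂ) := by
  simp only [tpoly, finsetSum_coeff, coeff_C_mul, coeff_X_pow]
  rw [Finset.sum_eq_single k]
  · simp
  · intro b _ hb
    simp [Ne.symm hb]
  · intro h
    exact absurd (Finset.mem_range.2 (Nat.lt_succ_of_le hk)) h

lemma tpoly_natDegree (f : ℂ → ℂ) (n : ℕ) : (tpoly f n).natDegree ≤ n := by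
  apply natDegree_sum_le_of_forall_le
  intro k hk
  exact (natDegree_C_mul_X_pow_le _ _).trans (Nat.lt_succ_iff.1 (Finset.mem_range.1 hk))

/-- For every `1 ≤ r < R < ∞`, `⋂_{K ∈ 𝓜(r,R)} FU(𝔻, K) = ∅`. -/
theorem result (r R : ℝ) (hr : 1 ≤ r) (hrR : r < R) : ⋂ K ∈ MrR r R, FU K = ∅ := by
  rw [eq_empty_iff_forall_notMem]
  intro f hf
  simp only [mem_iInter] at hf
  have hr0 : 0 < r := by linarith
  have hR0 : 0 < R := by linarith
  have hnr : ‖((-r : ℝ) : ℂ)‖ = r := by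
    rw [Complex.norm_real, Real.norm_eq_abs, abs_neg, abs_of_pos hr0]
  -- the one-point set
  have hK1 : ({((-r : ℝ) : ℂ)} : Set ℂ) ∈ MrR r R := by
    refine ⟨isCompact_singleton, ?_, ?_, ?_⟩
    · intro z hz
      rw [mem_singleton_iff] at hz
      rw [hz, mem_compl_iff, mem_ball, dist_zero_right, hnr]
      linarith
    · apply isConnected_compl_singleton_of_one_lt_rank
      rw [Complex.rank_real_complex]
      exact Cardinal.one_lt_two
    · intro z hz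
      rw [mem_singleton_iff] at hz
      rw [hz, hnr]
      exact ⟨le_refl _, hrR.le⟩
  set x1 : ({((-r : ℝ) : ℂ)} : Set ℂ) := ⟨((-r : ℝ) : ℂ), rfl⟩ with hx1
  have hE1 : 0 < lowerDensity {n | ‖taylorSum f n ((-r : ℝ) : ℂ) - 3‖ < 1} := by
    have hU := (hf _ hK1).2
      {g | ‖(g : C(({((-r : ℝ) : ℂ)} : Set ℂ), ℂ)) x1 - 3‖ < 1} ?_ ?_
    · exact hU
    · have hc : Continuous (fun g : AK ({((-r : ℝ) : ℂ)} : Set ℂ) =>
          ‖(g : C(({((-r : ℝ) : ℂ)} : Set ℂ), ℂ)) x1 - 3‖) := by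
        have h1 : Continuous (fun g : AK ({((-r : ℝ) : ℂ)} : Set ℂ) =>
          (g : C(({((-r : ℝ) : ℂ)} : Set ℂ), ℂ)) x1) :=
          (continuous_eval_const x1).comp continuous_subtype_val
        fun_prop
      exact isOpen_lt hc continuous_const
    · refine ⟨⟨ContinuousMap.const _ 3, ⟨fun _ => 3, fun _ => rfl, ?_⟩⟩, ?_⟩
      · exact (differentiable_const _).differentiableOn
      · simp
  obtain ⟨δ, hδ, hev1⟩ := density_eventually hE1
  obtain ⟨N0, hN0⟩ := eventually_atTop.1 hev1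
  -- parameters
  set ρ : ℝ := (r + R) / 2 with hρ
  have hρR : ρ < R := by rw [hρ]; linarith
  have hρr : r < ρ := by rw [hρ]; linarith
  have hρ0 : 0 < ρ := by linarith
  set l : ℝ := r / ρ with hl
  have hl0 : 0 < l := by positivity
  have hl1 : l < 1 := by rw [hl, div_lt_one hρ0]; exact hρr
  set B : ℝ := (2 * R + 2) / (R - ρ) with hB
  have hBpos : 0 < B := div_pos (by linarith) (by linarith)
  obtain ⟨q, hq⟩ := exists_nat_gt (2 / δ)
  have hqpos : 0 < q := by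
    rcases Nat.eq_zero_or_pos q with h0 | h0
    · rw [h0] at hq
      have : 0 < 2 / δ := by positivity
      simp at hq; linarith
    · exact h0
  have hqR : (0:ℝ) < q := by exact_mod_cast hqpos
  obtain ⟨t, ht0, ht⟩ : ∃ t : ℕ, 0 < t ∧ B ^ (2 * q) * l ^ t ≤ 1 := by
    have h1 : Tendsto (fun t : ℕ => B ^ (2 * q) * l ^ t) atTop (𝓝 (B ^ (2 * q) * 0)) :=
      (tendsto_pow_atTop_nhds_zero_of_lt_one hl0.le hl1).const_mul _
    rw [mul_zero] at h1
    have h2 := (h1.eventually (gt_mem_nhds (show (0:ℝ) < 1 from one_pos))).and (eventually_gt_atTop 0)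
    obtain ⟨t, ht⟩ := h2.exists
    exact ⟨t, ht.2, ht.1.le⟩
  obtain ⟨ε, hε, hmain⟩ := poly_small hr0 hrR hρR t
  -- the big compact set
  have hK2 : Kset r R ε ∈ MrR r R := by
    refine ⟨Kset_compact r R ε, ?_, Kset_compl_connected hr0 hrR hε, fun z hz => ⟨hz.1, hz.2.1⟩⟩
    intro z hz
    rw [mem_compl_iff, mem_ball, dist_zero_right]
    have := hz.1
    linarith
  have _hcs : CompactSpace (Kset r R ε) := isCompact_iff_compactSpace.1 (Kset_compact r R ε)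
  have hE2 : 0 < lowerDensity {m | ∀ z ∈ Kset r R ε, ‖taylorSum f m z‖ < 1} := by
    have hU := (hf _ hK2).2
      {g | MapsTo (g : C(Kset r R ε, ℂ)) univ (ball (0:ℂ) 1)} ?_ ?_
    · have hset : {m | ∀ z ∈ Kset r R ε, ‖taylorSum f m z‖ < 1} =
          {n | taylorRestrict f (Kset r R ε) n ∈
            {g : AK (Kset r R ε) | MapsTo (g : C(Kset r R ε, ℂ)) univ (ball (0:ℂ) 1)}} := by
        ext m
        constructor
        · intro h z _
          have := h z z.2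
          simpa using! this
        · intro h z hz
          have := h (mem_univ (⟨z, hz⟩ : Kset r R ε))
          simpa using! this
      rw [hset]; exact hU
    · exact (ContinuousMap.isOpen_setOfPred_mapsTo isCompact_univ isOpen_ball).preimage
        continuous_subtype_val
    · refine ⟨⟨ContinuousMap.const _ 0, ⟨fun _ => 0, fun _ => rfl, ?_⟩⟩, ?_⟩
      · exact (differentiable_const _).differentiableOn
      · intro z _; simp
  -- eventually small
  obtain ⟨M1, hM1⟩ : ∃ M1 : ℕ, ∀ m ≥ M1, l ^ (t * m) < (1 - l) ^ (2 * q * t) := by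
    have h1 : Tendsto (fun m : ℕ => (l ^ t) ^ m) atTop (𝓝 0) :=
      tendsto_pow_atTop_nhds_zero_of_lt_one (by positivity) (pow_lt_one₀ hl0.le hl1 ht0.ne')
    have h2 : (0:ℝ) < (1 - l) ^ (2 * q * t) := pow_pos (by linarith) _
    obtain ⟨M1, hM1⟩ := eventually_atTop.1 (h1.eventually (gt_mem_nhds h2))
    refine ⟨M1, fun m hm => ?_⟩
    rw [pow_mul]
    exact hM1 m hm
  obtain ⟨N2, hN2⟩ := exists_nat_gt (2 / δ)
  obtain ⟨m, hmE, hm⟩ := density_unbounded hE2 (max N0 (max M1 N2))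
  have hmN0 : N0 ≤ m := (le_max_left _ _).trans hm
  have hmM1 : M1 ≤ m := (le_max_left _ _).trans ((le_max_right _ _).trans hm)
  have hmN2 : N2 ≤ m := (le_max_right _ _).trans ((le_max_right _ _).trans hm)
  have hP : ∀ z : ℂ, ‖z‖ ≤ ρ → ‖(tpoly f m).eval z‖ ^ t ≤ B ^ m :=
    hmain m (tpoly f m) (tpoly_natDegree f m) (fun z hz => by rw [tpoly_eval]; exact (hmE z hz).le)
  set Mt : ℝ := (B ^ m) ^ ((t : ℝ)⁻¹) with hMt
  have hMt0 : 0 ≤ Mt := by positivity
  have hMtt : Mt ^ t = B ^ m := Real.rpow_inv_natCast_pow (by positivity) ht0.ne'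
  have hPM : ∀ z : ℂ, ‖z‖ = ρ → ‖(tpoly f m).eval z‖ ≤ Mt := by
    intro z hz
    have h1 := hP z hz.le
    rw [← hMtt] at h1
    exact le_of_pow_le_pow_left₀ ht0.ne' hMt0 h1
  have hcoef : ∀ k ≤ m, ‖iteratedDeriv k f 0 / (k.factorial : ℂ)‖ ≤ Mt / ρ ^ k := by
    intro k hk
    rw [← tpoly_coeff f m k hk]
    exact coeff_bound _ hρ0 hPM k
  have hdiff : ∀ n ≤ m, ‖taylorSum f m ((-r : ℝ) : ℂ) - taylorSum f n ((-r : ℝ) : ℂ)‖ ≤
      Mt * l ^ (n + 1) / (1 - l) := by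
    intro n hn
    have h1 : taylorSum f m ((-r : ℝ) : ℂ) - taylorSum f n ((-r : ℝ) : ℂ) =
        ∑ k ∈ Finset.Ico (n + 1) (m + 1),
          (iteratedDeriv k f 0 / (k.factorial : ℂ)) * ((-r : ℝ) : ℂ) ^ k := by
      rw [taylorSum, taylorSum, Finset.sum_Ico_eq_sub _ (by omega)]
    rw [h1]
    calc ‖∑ k ∈ Finset.Ico (n + 1) (m + 1),
          (iteratedDeriv k f 0 / (k.factorial : ℂ)) * ((-r : ℝ) : ℂ) ^ k‖
        ≤ ∑ k ∈ Finset.Ico (n + 1) (m + 1),
          ‖(iteratedDeriv k f 0 / (k.factorial : ℂ)) * ((-r : ℝ) : ℂ) ^ k‖ := norm_sum_le _ _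
      _ ≤ ∑ k ∈ Finset.Ico (n + 1) (m + 1), Mt * l ^ k := by
          apply Finset.sum_le_sum
          intro k hk
          rw [Finset.mem_Ico] at hk
          rw [norm_mul, norm_pow, hnr]
          calc _ ≤ Mt / ρ ^ k * r ^ k := by
                gcongr
                exact hcoef k (by omega)
            _ = Mt * l ^ k := by rw [hl, div_pow r ρ k, div_mul_eq_mul_div, mul_div_assoc]
      _ = Mt * ∑ k ∈ Finset.Ico (n + 1) (m + 1), l ^ k := by rw [Finset.mul_sum]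
      _ ≤ Mt * (l ^ (n + 1) / (1 - l)) := by
          gcongr
          exact geom_sum_Ico_le_of_lt_one hl0.le hl1
      _ = _ := by ring
  have hsmall : ∀ n ≤ m, m ≤ n * q → Mt * l ^ (n + 1) / (1 - l) < 1 := by
    intro n hn hnq
    have h1l : 0 < 1 - l := by linarith
    rw [div_lt_one h1l]
    have h2 : (Mt * l ^ (n + 1)) ^ (2 * q * t) < (1 - l) ^ (2 * q * t) := by
      refine lt_of_le_of_lt ?_ (hM1 m hmM1)
      have e1 : (Mt * l ^ (n + 1)) ^ (2 * q * t) =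
          (B ^ (2 * q)) ^ m * l ^ (2 * q * t * (n + 1)) := by
        rw [mul_pow, ← pow_mul l, mul_comm (n + 1) (2 * q * t)]
        congr 1
        rw [mul_comm (2 * q) t, pow_mul, hMtt, ← pow_mul, ← pow_mul]
        congr 1; ring
      rw [e1]
      have e2 : t * m + t * m ≤ 2 * q * t * (n + 1) := by
        have : m ≤ (n + 1) * q := hnq.trans (Nat.mul_le_mul_right _ (Nat.le_succ n))
        calc t * m + t * m = 2 * t * m := by ring
          _ ≤ 2 * t * ((n + 1) * q) := Nat.mul_le_mul_left _ this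
          _ = _ := by ring
      calc (B ^ (2 * q)) ^ m * l ^ (2 * q * t * (n + 1))
          ≤ (B ^ (2 * q)) ^ m * l ^ (t * m + t * m) := by
            gcongr ?_ * ?_
            exact pow_le_pow_of_le_one hl0.le hl1.le e2
        _ = (B ^ (2 * q) * l ^ t) ^ m * l ^ (t * m) := by
            rw [pow_add, mul_pow, ← pow_mul l t m]; ring
        _ ≤ 1 ^ m * l ^ (t * m) := by gcongr
        _ = l ^ (t * m) := by simp
    exact lt_of_pow_lt_pow_left₀ _ h1l.le h2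
  -- no n in (m/q, m] belongs to E1
  have hmK : ‖taylorSum f m ((-r : ℝ) : ℂ)‖ < 1 := by
    apply hmE
    refine ⟨hnr.ge, by rw [hnr]; exact hrR.le, ?_⟩
    rintro ⟨h1, -⟩
    simp at h1
    linarith
  have hnot : ∀ n ∈ {n | ‖taylorSum f n ((-r : ℝ) : ℂ) - 3‖ < 1}, n ≤ m → n < m / q + 1 := by
    intro n hnE hnm
    by_contra hcon
    push Not at hcon
    have h1 : m ≤ n * q := by
      have h2 : m < (m / q + 1) * q := by
        have := Nat.lt_div_mul_add (a := m) hqpos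
        linarith [this, Nat.add_mul (m / q) 1 q]
      exact (h2.le).trans (Nat.mul_le_mul_right _ hcon)
    have h3 := (hdiff n hnm).trans_lt (hsmall n hnm h1)
    have hnE' : ‖taylorSum f n ((-r : ℝ) : ℂ) - 3‖ < 1 := hnE
    have h4 : (3 : ℝ) = ‖(3 : ℂ)‖ := by simp
    have h5 : ‖(3 : ℂ)‖ ≤ ‖taylorSum f n ((-r : ℝ) : ℂ) - 3‖ +
        ‖taylorSum f m ((-r : ℝ) : ℂ) - taylorSum f n ((-r : ℝ) : ℂ)‖ +
        ‖taylorSum f m ((-r : ℝ) : ℂ)‖ := by
      have e : (3 : ℂ) = - (taylorSum f n ((-r : ℝ) : ℂ) - 3)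
        - (taylorSum f m ((-r : ℝ) : ℂ) - taylorSum f n ((-r : ℝ) : ℂ))
        + taylorSum f m ((-r : ℝ) : ℂ) := by ring
      calc ‖(3 : ℂ)‖ = ‖- (taylorSum f n ((-r : ℝ) : ℂ) - 3)
        - (taylorSum f m ((-r : ℝ) : ℂ) - taylorSum f n ((-r : ℝ) : ℂ))
        + taylorSum f m ((-r : ℝ) : ℂ)‖ := by rw [← e]
        _ ≤ ‖- (taylorSum f n ((-r : ℝ) : ℂ) - 3)
        - (taylorSum f m ((-r : ℝ) : ℂ) - taylorSum f n ((-r : ℝ) : ℂ))‖
        + ‖taylorSum f m ((-r : ℝ) : ℂ)‖ := norm_add_le _ _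
        _ ≤ _ := by
          gcongr
          refine (norm_sub_le _ _).trans ?_
          rw [norm_neg]
    linarith
  have hcard : ({n | ‖taylorSum f n ((-r : ℝ) : ℂ) - 3‖ < 1} ∩ Iic m).ncard ≤ m / q + 1 :=
    ncard_inter_Iic_le _ _ _ hnot
  have h6 := hN0 m hmN0
  have h7 : ((m / q + 1 : ℕ) : ℝ) ≤ (m : ℝ) / q + 1 := by
    push_cast
    gcongr
    exact Nat.cast_div_le
  have h8 : (({n | ‖taylorSum f n ((-r : ℝ) : ℂ) - 3‖ < 1} ∩ Iic m).ncard : ℝ) ≤ (m : ℝ) / q + 1 :=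
    le_trans (by exact_mod_cast hcard) h7
  have h9 : δ * ((m : ℝ) + 1) < (m : ℝ) / q + 1 := lt_of_lt_of_le h6 h8
  have h10 : (m : ℝ) / q ≤ δ / 2 * m := by
    rw [div_le_iff₀ hqR]
    rw [div_lt_iff₀ hδ] at hq
    nlinarith [(Nat.cast_nonneg m : (0:ℝ) ≤ m)]
  have h11 : (N2 : ℝ) ≤ m := by exact_mod_cast hmN2
  rw [div_lt_iff₀ hδ] at hN2
  nlinarith

end Pool.Agent.Results.MP_051359_an.Annulus
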